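import Pool.Agent.T2H92.RS.Bridge
import Pool.Agent.T2H92.RS.AMC
import Pool.Agent.T2H92.RS.AMF
import Pool.Agent.T2H92.RS.AML
import Pool.Agent.T2H92.RS.BAS
import Pool.Agent.T2H92.RS.BND
import Pool.Agent.T2H92.RS.CLO
import Pool.Agent.T2H92.RS.CMA1
import Pool.Agent.T2H92.RS.DEN
import Pool.Agent.T2H92.RS.DIS
import Pool.Agent.T2H92.RS.DMN
import Pool.Agent.T2H92.RS.FIX
import Pool.Agent.T2H92.RS.L2B
import Pool.Agent.T2H92.RS.LAP
import Pool.Agent.T2H92.RS.LIM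
import Pool.Agent.T2H92.RS.MK
import Pool.Agent.T2H92.RS.MS1
import Pool.Agent.T2H92.RS.MS2
import Pool.Agent.T2H92.RS.MS3
import Pool.Agent.T2H92.RS.PCOM2
import Pool.Agent.T2H92.RS.REG
import Pool.Agent.T2H92.RS.REI
import Pool.Agent.T2H92.RS.RGN
import Pool.Agent.T2H92.RS.RM1
import Pool.Agent.T2H92.RS.RM2
import Pool.Agent.T2H92.RS.RM3
import Pool.Agent.T2H92.RS.SPC
import Pool.Agent.T2H92.RS.SRC
import Pool.Agent.T2H92.RS.SYN
import Pool.Agent.T2H92.RS.TRU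
import Pool.Agent.T2H92.RS.TSG
import Pool.Agent.T2H92.RS.VC
import Pool.Agent.T2H92.RS.YNG

/-!
# The spectrum of absorption generators on `L¹(ℝ^d)` is real

Let `R = (λ - M_V)⁻¹` for a real `λ`. Then `|R f| ≤ E * |f|` with `E ∈ L¹`, and the quadratic form of `R` is real on
`L¹ ∩ L²`, so `|Im z| ‖g‖₂ ≤ ‖z g - R g‖₂`. Localising this bound with the weights `exp (-|x - s| / N)`, `N` large, and
integrating over `s` one gets `‖u‖₁ ≤ C ‖z u - R u‖₁` for `z` not real: the boundary of the `L¹` spectrum of `R` is real.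
-/

set_option autoImplicit false

open MeasureTheory Filter Topology Set

namespace Pool.Agent.Results.MP_21eaa0_an.RealSpectrum

open Pool.Agent.T2H92.RSR

/-- For every `d ≥ 1`, every vaguely continuous convolution semigroup `(m_t)` of symmetric measures of mass at most one on
`ℝ^d` the resolvent measures of which have integrable densities, and every regular potential `V` bounded from below, the
spectrum of the generator `M_V` of the absorption semigroup on `L¹(ℝ^d)` is real. -/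
theorem result :
    ∀ (d : ℕ), 1 ≤ d → ∀ (m : ℝ → Measure (Sp d)), ConvSG m →
      (∀ μ : ℝ, 0 < μ → ∃ E : Sp d → ℝ, IsDens m μ E) →
      ∀ V : Sp d → ℝ, Measurable V → ∀ c : ℝ, (∀ x, -c ≤ V x) →
      ∀ (M : ℝ → Op d) (Tn : ℕ → ℝ → Op d) (T : ℝ → Op d),
        Absorption m V M Tn T → SpecGen T ⊆ {z | z.im = 0} := by
  have hBAS := Pool.Agent.T2H92.RS.pBAS
  have hMK := Pool.Agent.T2H92.RS.pMK
  have hYNG := Pool.Agent.T2H92.RS.pYNG hBAS hMK
  have hAMC := Pool.Agent.T2H92.RS.pAMC hBAS hMK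
  have hTRU := Pool.Agent.T2H92.RS.pTRU hBAS Pool.Agent.T2H92.RS.pAMF
  have hAPR := Pool.Agent.T2H92.RS.pAPR hBAS (Pool.Agent.T2H92.RS.pAML hBAS)
    (Pool.Agent.T2H92.RS.pCOM1 hBAS) (Pool.Agent.T2H92.RS.pCOM2 hMK)
    (Pool.Agent.T2H92.RS.pL2B hYNG) (Pool.Agent.T2H92.RS.pREG hBAS hAMC hTRU)
    (Pool.Agent.T2H92.RS.pSRC hBAS hAMC hTRU)
  have hMS2 := Pool.Agent.T2H92.RS.pMS2
  have hVC := Pool.Agent.T2H92.RS.pVC hMS2
  have hRM1 := Pool.Agent.T2H92.RS.pRM1 hVC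
  have h := Pool.Agent.T2H92.RS.pFIN hBAS hYNG hAPR Pool.Agent.T2H92.RS.pSPC
    Pool.Agent.T2H92.RS.pRGN Pool.Agent.T2H92.RS.pLAP
    (Pool.Agent.T2H92.RS.pBND Pool.Agent.T2H92.RS.pDEN) Pool.Agent.T2H92.RS.pMS1
    (Pool.Agent.T2H92.RS.pMS3 hMS2) (Pool.Agent.T2H92.RS.pRM2 hRM1)
    (Pool.Agent.T2H92.RS.pRM3 hVC) Pool.Agent.T2H92.RS.pDIS Pool.Agent.T2H92.RS.pFIX
    (Pool.Agent.T2H92.RS.pREI hBAS) (Pool.Agent.T2H92.RS.pDMN hBAS)
    (Pool.Agent.T2H92.RS.pSYN hYNG) (Pool.Agent.T2H92.RS.pCLO hBAS hYNG)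
    Pool.Agent.T2H92.RS.pLIM Pool.Agent.T2H92.RS.pTSG
  intro d _ m hm hdens V hV c hc M Tn T hA
  exact Pool.Agent.T2H92.RS.bridge h d m hm hdens V hV c hc M Tn T hA

end Pool.Agent.Results.MP_21eaa0_an.RealSpectrum
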